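import Pool.Agent.Helper6.EC_B.Goals

set_option autoImplicit false

open MeasureTheory Set

namespace EC237.PB.PkCVB

theorem thm : G_CVB := by
  intro F Y
  rw [intervalIntegral.integral_of_le (Real.exp_pos Y).le]
  have himg : Real.exp '' (Iic Y) = Ioc 0 (Real.exp Y) := by
    ext x
    constructor
    · rintro ⟨y, hy, rfl⟩
      exact ⟨Real.exp_pos y, Real.exp_le_exp.mpr hy⟩
    · rintro ⟨h1, h2⟩
      refine ⟨Real.log x, ?_, Real.exp_log h1⟩
      exact (Real.log_le_iff_le_exp h1).mpr h2
  rw [← himg, integral_image_eq_integral_abs_deriv_smul measurableSet_Iic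
    (fun x _ => (Real.hasDerivAt_exp x).hasDerivWithinAt) Real.exp_injective.injOn]
  refine setIntegral_congr_fun measurableSet_Iic fun y _ => ?_
  have h := Real.exp_pos y
  simp only [smul_eq_mul]
  rw [abs_of_pos h]
  field_simp

end EC237.PB.PkCVB
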